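import Mathlib

/-!
# MP_8d849c_gt: a product of co-sober spaces which is not co-sober
-/

set_option autoImplicit false

open Set Topology Filter

universe u v

namespace Pool.Agent.Results.MP_8d849c_gt.ProductNotCoSober

section defs

variable {X : Type u} [TopologicalSpace X]

/-- the specialization order: `x ≤ y` iff `x ∈ closure {y}` -/
def sle (x y : X) : Prop := x ∈ closure ({y} : Set X)

/-- saturated sets: intersections of open sets -/
def Saturated (K : Set X) : Prop := K = ⋂₀ {U | IsOpen U ∧ K ⊆ U}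

/-- members of `K(X)`: nonempty compact saturated sets -/
def InK (K : Set X) : Prop := K.Nonempty ∧ IsCompact K ∧ Saturated K

/-- `k`-irreducible members of `K(X)` -/
def KIrreducible (G : Set X) : Prop :=
  InK G ∧ ∀ K₁ K₂ : Set X, InK K₁ → InK K₂ → G = K₁ ∪ K₂ → G = K₁ ∨ G = K₂

variable (X) in
/-- co-sober spaces -/
def CoSober : Prop := T0Space X ∧ ∀ G : Set X, KIrreducible G → ∃ k : X, G = {y | sle k y}

theorem saturated_of_t1 [T1Space X] (K : Set X) : Saturated K := by
  apply Subset.antisymm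
  · exact fun x hx => mem_sInter.mpr fun U hU => hU.2 hx
  · intro x hx
    by_contra hxK
    have := mem_sInter.mp hx ({x}ᶜ) ⟨isOpen_compl_singleton, fun y hy hyx => hxK (hyx ▸ hy)⟩
    exact this rfl

theorem sle_iff_eq [T1Space X] {x y : X} : sle x y ↔ x = y := by
  unfold sle
  rw [closure_singleton, mem_singleton_iff]

theorem up_eq [T1Space X] (k : X) : {y | sle k y} = {k} := by
  ext y
  simp only [mem_ofPred_eq, sle_iff_eq, mem_singleton_iff]
  exact eq_comm

/-- a `T₁` space all of whose subsets are compact is co-sober -/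
theorem coSober_of [T1Space X] (h : ∀ K : Set X, IsCompact K) : CoSober X := by
  refine ⟨inferInstance, fun G hG => ?_⟩
  obtain ⟨k, hk⟩ := hG.1.1
  refine ⟨k, ?_⟩
  rw [up_eq]
  by_cases hG2 : (G \ {k}).Nonempty
  · have hu : G = {k} ∪ (G \ {k}) := by
      rw [union_diff_self]
      exact (union_eq_self_of_subset_left (singleton_subset_iff.mpr hk)).symm
    rcases hG.2 {k} (G \ {k}) ⟨singleton_nonempty k, h _, saturated_of_t1 _⟩ ⟨hG2, h _, saturated_of_t1 _⟩ hu with h1 | h1
    · exact h1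
    · exfalso
      rw [h1] at hk
      exact hk.2 rfl
  · rw [not_nonempty_iff_eq_empty, diff_eq_empty] at hG2
    exact Subset.antisymm hG2 (singleton_subset_iff.mpr hk)

end defs

/-! ### the combinatorial part -/

/-- the countable base set -/
abbrev M : Type := ℕ × ℤ

/-- the branch of a real number -/
noncomputable def br (x : ℝ) (n : ℕ) : M := (n, ⌊(2 : ℝ) ^ n * x⌋)

/-- the almost disjoint family -/
def A (x : ℝ) : Set M := range (br x)

theorem br_inj (x : ℝ) : Function.Injective (br x) := fun _ _ h => congrArg Prod.fst h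

theorem A_infinite (x : ℝ) : (A x).Infinite := infinite_range_of_injective (br_inj x)

theorem A_inter_finite {x y : ℝ} (h : x ≠ y) : (A x ∩ A y).Finite := by
  have hpos : 0 < |x - y| := abs_pos.mpr (sub_ne_zero.mpr h)
  obtain ⟨N, hN⟩ := exists_nat_gt (1 / |x - y|)
  have hsub : A x ∩ A y ⊆ br x '' Iio N := by
    rintro _ ⟨⟨n, rfl⟩, ⟨m, hm⟩⟩
    have hmn : m = n := congrArg Prod.fst hm
    subst hmn
    refine ⟨m, ?_, rfl⟩
    by_contra hmN
    have hmN' : N ≤ m := not_lt.mp hmN
    have h1 : ⌊(2 : ℝ) ^ m * y⌋ = ⌊(2 : ℝ) ^ m * x⌋ := congrArg Prod.snd hm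
    have h2 := Int.abs_sub_lt_one_of_floor_eq_floor h1
    rw [← mul_sub, abs_mul, abs_of_pos (by positivity : (0 : ℝ) < 2 ^ m), abs_sub_comm] at h2
    have h3 : (N : ℝ) < 2 ^ m := by
      calc (N : ℝ) ≤ m := by exact_mod_cast hmN'
        _ < 2 ^ m := by exact_mod_cast Nat.lt_two_pow_self
    rw [div_lt_iff₀ hpos] at hN
    nlinarith
  exact ((finite_Iio N).image _).subset hsub

/-- a rational functional on the reals which vanishes at one -/
theorem exists_functional : ∃ φ : ℝ →ₗ[ℚ] ℚ, φ 1 = 0 ∧ Function.Surjective φ := by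
  have hlt : (Submodule.span ℚ {(1 : ℝ)}) < ⊤ := by
    rw [lt_top_iff_ne_top]
    intro h
    have h1 : Real.sqrt 2 ∈ Submodule.span ℚ {(1 : ℝ)} := by rw [h]; trivial
    obtain ⟨a, ha⟩ := Submodule.mem_span_singleton.mp h1
    apply irrational_sqrt_two
    refine ⟨a, ?_⟩
    rw [← ha, Rat.smul_one_eq_cast]
  obtain ⟨f, hf0, hf⟩ := Submodule.exists_le_ker_of_lt_top _ hlt
  refine ⟨f, hf (Submodule.mem_span_singleton_self 1), ?_⟩
  exact LinearMap.surjective hf0

/-- the fibres of the functional -/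
def Pa (φ : ℝ →ₗ[ℚ] ℚ) (q : ℚ) : Set ℝ := {x | φ x = q}

theorem not_meagre_univ : ¬ IsMeagre (univ : Set ℝ) := by
  intro h
  have h1 : (∅ : Set ℝ) ∈ residual ℝ := by
    have : (univ : Set ℝ)ᶜ ∈ residual ℝ := h
    rwa [compl_univ] at this
  have h2 := dense_of_mem_residual h1
  obtain ⟨x, hx⟩ := h2.nonempty
  exact hx

theorem meagre_translate {S : Set ℝ} (hS : IsMeagre S) (t : ℝ) : IsMeagre {x | x - t ∈ S} := by
  have h1 : Continuous fun x : ℝ => x - t := continuous_id.sub continuous_const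
  have h2 : IsOpenMap fun x : ℝ => x - t := (Homeomorph.subRight t).isOpenMap
  exact hS.preimage_of_isOpenMap h1 h2

theorem Pa_not_meagre {φ : ℝ →ₗ[ℚ] ℚ} (h1 : φ 1 = 0) (hs : Function.Surjective φ) (q : ℚ) {a b : ℝ} (hab : a < b) :
    ¬ IsMeagre (Pa φ q ∩ Ioo a b) := by
  intro hm
  have hPq : IsMeagre (Pa φ q) := by
    have hsub : Pa φ q ⊆ ⋃ r : ℚ, {x | x - (r : ℝ) ∈ Pa φ q ∩ Ioo a b} := by
      intro x hx
      obtain ⟨r, hr1, hr2⟩ := exists_rat_btwn (show x - b < x - a by linarith)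
      refine mem_iUnion.mpr ⟨r, ?_, ?_⟩
      · change φ (x - (r : ℝ)) = q
        have h2 : φ (r : ℝ) = 0 := by
          have h3 : (r : ℝ) = r • (1 : ℝ) := (Rat.smul_one_eq_cast ℝ r).symm
          rw [h3, map_smul, h1, smul_zero]
        rw [map_sub, h2, sub_zero]
        exact hx
      · constructor <;> linarith
    exact (isMeagre_iUnion fun r : ℚ => meagre_translate hm r).mono hsub
  apply not_meagre_univ
  have hsub : (univ : Set ℝ) ⊆ ⋃ q' : ℚ, Pa φ q' := fun x _ => mem_iUnion.mpr ⟨φ x, rfl⟩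
  refine (isMeagre_iUnion fun q' : ℚ => ?_).mono hsub
  obtain ⟨v, hv⟩ := hs (q' - q)
  refine (meagre_translate hPq v).mono ?_
  intro x hx
  have hx' : φ x = q' := hx
  change φ (x - v) = q
  rw [map_sub, hx', hv]
  ring

/-- the Baire category step -/
theorem step {φ : ℝ →ₗ[ℚ] ℚ} (h1 : φ 1 = 0) (hs : Function.Surjective φ) (q : ℚ) {Bs : Set M}
    (hB : ∀ x ∈ Pa φ q, (Bs ∩ A x).Finite) {a b : ℝ} (hab : a < b) :
    ∃ a' b', a' < b' ∧ Ioo a' b' ⊆ Ioo a b ∧ ∀ x ∈ Ioo a' b', Irrational x → (A x ∩ Bs).Finite := by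
  let S : ℕ → Set ℝ := fun N => {x | x ∈ Pa φ q ∩ Ioo a b ∧ ∀ n, N ≤ n → br x n ∉ Bs}
  have hcov : Pa φ q ∩ Ioo a b ⊆ ⋃ N, S N := by
    rintro x ⟨hx, hxab⟩
    have hfin : (br x ⁻¹' Bs).Finite := by
      have h2 := (hB x hx).preimage (f := br x) (br_inj x).injOn
      refine h2.subset fun n hn => ⟨hn, n, rfl⟩
    obtain ⟨N, hN⟩ := hfin.bddAbove
    refine mem_iUnion.mpr ⟨N + 1, ⟨hx, hxab⟩, fun n hn hnB => ?_⟩
    have : n ≤ N := hN hnB
    omega
  have hex : ∃ N, (interior (closure (S N))).Nonempty := by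
    by_contra hcon
    push Not at hcon
    apply Pa_not_meagre h1 hs q hab
    refine (isMeagre_iUnion fun N => ?_).mono hcov
    have : IsNowhereDense (S N) := hcon N
    exact this.isMeagre
  obtain ⟨N, z, hz⟩ := hex
  obtain ⟨y, hy1, hy2⟩ : (interior (closure (S N)) ∩ S N).Nonempty := by
    have hzc : z ∈ closure (S N) := interior_subset hz
    exact mem_closure_iff.mp hzc _ isOpen_interior hz
  have hO : IsOpen (interior (closure (S N)) ∩ Ioo a b) := isOpen_interior.inter isOpen_Ioo
  obtain ⟨ε, hε, hball⟩ := Metric.isOpen_iff.mp hO y ⟨hy1, hy2.1.2⟩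
  rw [Real.ball_eq_Ioo] at hball
  refine ⟨y - ε, y + ε, by linarith, fun x hx => (hball hx).2, fun x hx hirr => ?_⟩
  have hsub : A x ∩ Bs ⊆ br x '' Iio N := by
    rintro _ ⟨⟨n, rfl⟩, hnB⟩
    refine ⟨n, ?_, rfl⟩
    by_contra hnN
    have hnN' : N ≤ n := not_lt.mp hnN
    -- the open dyadic interval
    have h2n : (0 : ℝ) < 2 ^ n := by positivity
    have hne : (2 : ℝ) ^ n * x ≠ (⌊(2 : ℝ) ^ n * x⌋ : ℝ) := by
      intro h
      have h3 : Irrational ((2 : ℝ) ^ n * x) := by
        have := hirr.ratCast_mul (q := (2 : ℚ) ^ n) (by positivity)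
        push_cast at this
        exact this
      exact h3.ne_int _ h
    have hlo : (⌊(2 : ℝ) ^ n * x⌋ : ℝ) < 2 ^ n * x := lt_of_le_of_ne (Int.floor_le _) hne.symm
    have hhi : (2 : ℝ) ^ n * x < ⌊(2 : ℝ) ^ n * x⌋ + 1 := Int.lt_floor_add_one _
    let D : Set ℝ := {t | (⌊(2 : ℝ) ^ n * x⌋ : ℝ) < 2 ^ n * t ∧ 2 ^ n * t < ⌊(2 : ℝ) ^ n * x⌋ + 1}
    have hD : IsOpen D := (isOpen_lt continuous_const (continuous_const.mul continuous_id)).inter
      (isOpen_lt (continuous_const.mul continuous_id) continuous_const)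
    have hxc : x ∈ closure (S N) := interior_subset (hball hx).1
    obtain ⟨t, ht1, ht2⟩ := mem_closure_iff.mp hxc D hD ⟨hlo, hhi⟩
    have hfl : ⌊(2 : ℝ) ^ n * t⌋ = ⌊(2 : ℝ) ^ n * x⌋ := by
      rw [Int.floor_eq_iff]
      exact ⟨ht1.1.le, ht1.2⟩
    apply ht2.2 n hnN'
    have : br t n = br x n := by simp only [br, hfl]
    rw [this]
    exact hnB
  exact ((finite_Iio N).image _).subset hsub

/-- the ultrafilter -/
theorem exists_p {φ : ℝ →ₗ[ℚ] ℚ} (h1 : φ 1 = 0) (hs : Function.Surjective φ) :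
    ∃ p : Ultrafilter M, (∀ x, A x ∉ p) ∧ ∀ (q : ℚ) (Bs : Set M), (∀ x ∈ Pa φ q, (Bs ∩ A x).Finite) → Bs ∉ p := by
  classical
  let 𝒢 : Set (Set M) := range A ∪ {Bs | ∃ q : ℚ, ∀ x ∈ Pa φ q, (Bs ∩ A x).Finite}
  obtain ⟨p, hp⟩ := Ultrafilter.exists_ultrafilter_of_finite_inter_nonempty {t : Set M | tᶜ ∈ 𝒢} (by
    intro T hT
    have key : ∀ T' : Finset (Set M), T' ⊆ T → ∃ a b : ℝ, a < b ∧ ∃ F : Finset ℝ, ∀ x ∈ Ioo a b, Irrational x →
        x ∉ F → ∀ t ∈ T', (A x \ t).Finite := by
      intro T'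
      induction T' using Finset.induction_on with
      | empty => exact fun _ => ⟨0, 1, one_pos, ∅, by simp⟩
      | insert t T' ht ih =>
        intro hsub
        obtain ⟨a, b, hab, F, hF⟩ := ih ((Finset.subset_insert t T').trans hsub)
        have htG : tᶜ ∈ 𝒢 := hT (hsub (Finset.mem_insert_self t T'))
        rcases htG with ⟨y, hy⟩ | ⟨q, hq⟩
        · refine ⟨a, b, hab, insert y F, fun x hx hirr hxF s hs' => ?_⟩
          have hxy : x ≠ y := fun h => hxF (h ▸ Finset.mem_insert_self _ _)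
          have hxF' : x ∉ F := fun h => hxF (Finset.mem_insert_of_mem h)
          rcases Finset.mem_insert.mp hs' with rfl | hs'
          · have : A x \ s = A x ∩ A y := by rw [hy, diff_eq]
            rw [this]
            exact A_inter_finite hxy
          · exact hF x hx hirr hxF' s hs'
        · obtain ⟨a', b', hab', hsub', hfin⟩ := step h1 hs q hq hab
          refine ⟨a', b', hab', F, fun x hx hirr hxF s hs' => ?_⟩
          rcases Finset.mem_insert.mp hs' with rfl | hs'
          · rw [diff_eq]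
            exact hfin x hx hirr
          · exact hF x (hsub' hx) hirr hxF s hs'
    obtain ⟨a, b, hab, F, hF⟩ := key T (Finset.Subset.refl T)
    obtain ⟨x, hx, hxab⟩ : ((range ((↑) : ℚ → ℝ) ∪ (F : Set ℝ))ᶜ ∩ Ioo a b).Nonempty := by
      have hc : (range ((↑) : ℚ → ℝ) ∪ (F : Set ℝ)).Countable := (countable_range _).union F.countable_toSet
      have hd := hc.dense_compl ℝ
      obtain ⟨x, hx1, hx2⟩ := hd.inter_open_nonempty _ isOpen_Ioo (nonempty_Ioo.mpr hab)
      exact ⟨x, hx2, hx1⟩
    have hxirr : Irrational x := fun h => hx (Or.inl h)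
    have hxF : x ∉ F := fun h => hx (Or.inr h)
    have hfin : (⋃ t ∈ T, A x \ t).Finite := Set.Finite.biUnion T.finite_toSet fun t ht => hF x hxab hxirr hxF t ht
    obtain ⟨m, hmA, hm⟩ : (A x \ ⋃ t ∈ T, A x \ t).Nonempty := ((A_infinite x).diff hfin).nonempty
    refine ⟨m, fun t ht => ?_⟩
    by_contra hmt
    exact hm (mem_biUnion ht ⟨hmA, hmt⟩))
  refine ⟨p, fun x hx => ?_, fun q Bs hB hBp => ?_⟩
  · have h2 : (A x)ᶜ ∈ p := hp (show ((A x)ᶜ)ᶜ ∈ 𝒢 by rw [compl_compl]; exact Or.inl ⟨x, rfl⟩)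
    exact Ultrafilter.compl_mem_iff_notMem.mp h2 hx
  · have h2 : Bsᶜ ∈ p := hp (show (Bsᶜ)ᶜ ∈ 𝒢 by rw [compl_compl]; exact Or.inr ⟨q, hB⟩)
    exact Ultrafilter.compl_mem_iff_notMem.mp h2 hBp

/-! ### the topology -/

section topo

variable (p : Ultrafilter M) (l : ℝ → M)

/-- the nonempty open sets -/
def Good (U : Set M) : Prop :=
  U ∈ p ∧ (∀ B : Set M, (∀ x, (B ∩ A x).Finite) → (B \ U).Finite) ∧ ∀ x, l x ∈ U → (A x \ U).Finite

/-- the topology on the countable set -/
@[reducible] def tau : TopologicalSpace M where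
  IsOpen U := U = ∅ ∨ Good p l U
  isOpen_univ := Or.inr ⟨univ_mem, fun B _ => by simp, fun x _ => by simp⟩
  isOpen_inter := by
    rintro U V (rfl | hU) (rfl | hV)
    · left; simp
    · left; simp
    · left; simp
    · right
      refine ⟨inter_mem hU.1 hV.1, fun B hB => ?_, fun x hx => ?_⟩
      · rw [diff_inter]
        exact (hU.2.1 B hB).union (hV.2.1 B hB)
      · rw [diff_inter]
        exact (hU.2.2 x hx.1).union (hV.2.2 x hx.2)
  isOpen_sUnion := by
    intro S hS
    by_cases h : ∃ U ∈ S, U ≠ ∅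
    · right
      obtain ⟨U, hUS, hU⟩ := h
      have hUg := (hS U hUS).resolve_left hU
      refine ⟨mem_of_superset hUg.1 (subset_sUnion_of_mem hUS), fun B hB => ?_, fun x hx => ?_⟩
      · exact (hUg.2.1 B hB).subset (diff_subset_diff_right (subset_sUnion_of_mem hUS))
      · obtain ⟨V, hVS, hxV⟩ := mem_sUnion.mp hx
        have hVg := (hS V hVS).resolve_left (fun h => by rw [h] at hxV; exact hxV)
        exact (hVg.2.2 x hxV).subset (diff_subset_diff_right (subset_sUnion_of_mem hVS))
    · left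
      push Not at h
      exact sUnion_eq_empty.mpr h

variable {p l}

theorem tau_cofinite (hp : ∀ F : Set M, F.Finite → F ∉ p) {F : Set M} (hF : F.Finite) : IsOpen[tau p l] Fᶜ := by
  right
  refine ⟨Ultrafilter.compl_mem_iff_notMem.mpr (hp F hF), fun B _ => ?_, fun x _ => ?_⟩
  · rw [diff_compl]
    exact hF.inter_of_right _
  · rw [diff_compl]
    exact hF.inter_of_right _

theorem tau_of_fac (hp : ∀ F : Set M, F.Finite → F ∉ p) {U W : Set M} (hU : IsOpen[tau p l] U)
    (hW : W = ∅ ∨ Wᶜ.Finite ∨ (W ⊆ U ∧ (U \ W).Finite)) : IsOpen[tau p l] W := by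
  letI : TopologicalSpace M := tau p l
  rcases hW with hW | hW | hW
  · rw [hW]; exact isOpen_empty
  · have := tau_cofinite (l := l) hp hW
    rwa [compl_compl] at this
  · have h2 : W = U ∩ (U \ W)ᶜ := by
      ext z
      constructor
      · exact fun hz => ⟨hW.1 hz, fun h => h.2 hz⟩
      · rintro ⟨hzU, hz⟩
        by_contra hzW
        exact hz ⟨hzU, hzW⟩
    rw [h2]
    exact hU.inter (tau_cofinite hp hW.2)

/-- a sequence with eventually avoided points takes infinitely many values -/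
theorem infinite_range_of_avoid {e : ℕ → M} {V : ℕ → Set M} (hV : Monotone V) (he : ∀ k, e k ∈ V k)
    (hsurj : Function.Surjective e) {x : ℕ → M} (hx : ∀ n, x n ∉ V n) : (range x).Infinite := by
  intro hfin
  obtain ⟨N, hN⟩ : ∃ N, range x ⊆ V N := by
    have : ∀ T : Set M, T.Finite → ∃ N, T ⊆ V N := by
      intro T hT
      induction T, hT using Set.Finite.induction_on with
      | empty => exact ⟨0, by simp⟩
      | @insert a T _ _ ih =>
        obtain ⟨N, hN⟩ := ih
        obtain ⟨k, rfl⟩ := hsurj a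
        refine ⟨max N k, insert_subset (hV (le_max_right _ _) (he k)) (hN.trans (hV (le_max_left _ _)))⟩
    exact this _ hfin
  exact hx N (hN ⟨N, rfl⟩)

theorem tau_compact {e : ℕ → M} (hsurj : Function.Surjective e) : @CompactSpace M (tau p l) := by
  classical
  letI : TopologicalSpace M := tau p l
  refine ⟨?_⟩
  refine isCompact_of_finite_subcover ?_
  intro ι U hU hcov
  have hc : ∀ n, ∃ i, e n ∈ U i := fun n => mem_iUnion.mp (hcov (mem_univ (e n)))
  choose i hi using hc
  let V : ℕ → Set M := fun n => ⋃ k ∈ Finset.range (n + 1), U (i k)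
  have hVmono : Monotone V := by
    intro a b hab
    refine biUnion_subset_biUnion_left fun k hk => ?_
    simp only [Finset.coe_range, mem_Iio] at hk ⊢
    omega
  have hVe : ∀ k, e k ∈ V k := fun k => mem_biUnion (Finset.mem_coe.mpr (Finset.mem_range.mpr (Nat.lt_succ_self k))) (hi k)
  have hVopen : ∀ n, IsOpen (V n) := fun n => isOpen_biUnion fun k _ => hU (i k)
  have hVgood : ∀ n, Good p l (V n) := fun n => (hVopen n).resolve_left (fun h => by
    have := hVe n
    rw [h] at this
    exact this)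
  by_contra hcon
  have hx : ∀ n, ∃ x, x ∉ V n := by
    intro n
    by_contra h
    push Not at h
    apply hcon
    refine ⟨(Finset.range (n + 1)).image i, fun y _ => ?_⟩
    have := h y
    obtain ⟨k, hk, hyk⟩ := mem_iUnion₂.mp this
    exact mem_iUnion₂.mpr ⟨i k, Finset.mem_image_of_mem i hk, hyk⟩
  choose x hx using hx
  have hinf := infinite_range_of_avoid hVmono hVe hsurj hx
  by_cases h : ∀ y, (range x ∩ A y).Finite
  · apply hinf
    refine ((hVgood 0).2.1 _ h).subset ?_
    rintro _ ⟨n, rfl⟩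
    exact ⟨⟨n, rfl⟩, fun h0 => hx n (hVmono (Nat.zero_le n) h0)⟩
  · push Not at h
    obtain ⟨y, hy⟩ := h
    obtain ⟨k, hk⟩ := hsurj (l y)
    have h1 : (A y \ V k).Finite := (hVgood k).2.2 y (hk ▸ hVe k)
    apply hy
    refine (h1.union ((finite_Iio k).image x)).subset ?_
    rintro _ ⟨⟨n, rfl⟩, hnA⟩
    by_cases hn : n < k
    · exact Or.inr ⟨n, hn, rfl⟩
    · exact Or.inl ⟨hnA, fun h0 => hx n (hVmono (not_lt.mp hn) h0)⟩

theorem tau_proper (hp : ∀ F : Set M, F.Finite → F ∉ p) (hA : ∀ x, A x ∉ p) {K : Set M}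
    (hK : @IsCompact M (tau p l) K) {a : M} (ha : a ∉ K) {x : ℝ} (hx : l x = a) : (K ∩ A x).Finite := by
  classical
  letI : TopologicalSpace M := tau p l
  let U : Finset M → Set M := fun F => ({a} ∪ (A x \ F))ᶜ
  have hUopen : ∀ F, IsOpen (U F) := by
    intro F
    right
    refine ⟨Ultrafilter.compl_mem_iff_notMem.mpr fun h => ?_, fun B hB => ?_, fun y hy => ?_⟩
    · rcases Ultrafilter.union_mem_iff.mp h with h | h
      · exact hp _ (finite_singleton a) h
      · exact hA x (mem_of_superset h diff_subset)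
    · refine ((finite_singleton a).union (hB x)).subset ?_
      rintro z ⟨hzB, hz⟩
      rw [notMem_compl_iff] at hz
      rcases hz with hz | hz
      · exact Or.inl hz
      · exact Or.inr ⟨hzB, hz.1⟩
    · have hyx : y ≠ x := by
        rintro rfl
        exact hy (Or.inl hx)
      refine ((finite_singleton a).union (A_inter_finite hyx)).subset ?_
      rintro z ⟨hzB, hz⟩
      rw [notMem_compl_iff] at hz
      rcases hz with hz | hz
      · exact Or.inl hz
      · exact Or.inr ⟨hzB, hz.1⟩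
  have hmono : Directed (· ⊆ ·) U := by
    intro F G
    refine ⟨F ∪ G, ?_, ?_⟩
    · apply compl_subset_compl.mpr
      apply union_subset_union_right
      apply diff_subset_diff_right
      exact Finset.coe_subset.mpr Finset.subset_union_left
    · apply compl_subset_compl.mpr
      apply union_subset_union_right
      apply diff_subset_diff_right
      exact Finset.coe_subset.mpr Finset.subset_union_right
  obtain ⟨F, hF⟩ := hK.elim_directed_cover U hUopen (fun z hz => by
    refine mem_iUnion.mpr ⟨{z}, ?_⟩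
    rintro (h | h)
    · exact ha (h ▸ hz)
    · exact h.2 (by simp)) hmono
  refine F.finite_toSet.subset ?_
  rintro z ⟨hzK, hzA⟩
  by_contra hzF
  exact hF hzK (Or.inr ⟨hzA, hzF⟩)

end topo

/-! ### the factors -/

/-- the topology of the factor attached to `U`: nonempty open sets are the cofinite sets and the
cofinite subsets of `U` -/
@[reducible] def facT (U : Set M) : TopologicalSpace M where
  IsOpen W := W = (∅ : Set M) ∨ (W : Set M)ᶜ.Finite ∨ ((W : Set M) ⊆ U ∧ (U \ W).Finite)
  isOpen_univ := by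
    right; left
    change ((univ : Set M)ᶜ).Finite
    simp
  isOpen_inter := by
    intro V W hV hW
    change (V : Set M) = ∅ ∨ (V : Set M)ᶜ.Finite ∨ ((V : Set M) ⊆ U ∧ (U \ V).Finite) at hV
    change (W : Set M) = ∅ ∨ (W : Set M)ᶜ.Finite ∨ ((W : Set M) ⊆ U ∧ (U \ W).Finite) at hW
    change (V ∩ W : Set M) = ∅ ∨ (V ∩ W : Set M)ᶜ.Finite ∨ ((V ∩ W : Set M) ⊆ U ∧ (U \ (V ∩ W : Set M)).Finite)
    rcases hV with hV | hV | hV
    · left; rw [hV]; exact empty_inter _
    · rcases hW with hW | hW | hW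
      · left; rw [hW]; exact inter_empty _
      · right; left
        rw [compl_inter]
        exact hV.union hW
      · right; right
        refine ⟨inter_subset_right.trans hW.1, ?_⟩
        rw [diff_inter]
        exact (hV.subset fun z hz => hz.2).union hW.2
    · rcases hW with hW | hW | hW
      · left; rw [hW]; exact inter_empty _
      · right; right
        refine ⟨inter_subset_left.trans hV.1, ?_⟩
        rw [diff_inter]
        exact hV.2.union (hW.subset fun z hz => hz.2)
      · right; right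
        refine ⟨inter_subset_left.trans hV.1, ?_⟩
        rw [diff_inter]
        exact hV.2.union hW.2
  isOpen_sUnion := by
    intro S hS
    change (⋃₀ S : Set M) = ∅ ∨ (⋃₀ S : Set M)ᶜ.Finite ∨ ((⋃₀ S : Set M) ⊆ U ∧ (U \ (⋃₀ S : Set M)).Finite)
    have hS' : ∀ W ∈ S, (W : Set M) = ∅ ∨ (W : Set M)ᶜ.Finite ∨ ((W : Set M) ⊆ U ∧ (U \ W).Finite) := hS
    by_cases h : ∃ W ∈ S, (W : Set M)ᶜ.Finite
    · obtain ⟨W, hWS, hW⟩ := h
      right; left
      exact hW.subset (compl_subset_compl.mpr (subset_sUnion_of_mem hWS))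
    · push Not at h
      by_cases h' : ∃ W ∈ S, (W : Set M) ≠ ∅
      · obtain ⟨W, hWS, hW⟩ := h'
        right; right
        constructor
        · apply sUnion_subset
          intro V hVS
          rcases hS' V hVS with hV | hV | hV
          · rw [hV]; exact empty_subset _
          · exact absurd hV (h V hVS)
          · exact hV.1
        · have hW' := ((hS' W hWS).resolve_left hW).resolve_left (h W hWS)
          exact hW'.2.subset (diff_subset_diff_right (subset_sUnion_of_mem hWS))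
      · push Not at h'
        left
        exact sUnion_eq_empty.mpr h'

/-- the factor attached to `U` -/
def Fac (_ : Set M) : Type := M

instance facTop (U : Set M) : TopologicalSpace (Fac U) := facT U

theorem fac_isOpen_iff {U : Set M} {W : Set (Fac U)} :
    IsOpen W ↔ (W : Set M) = ∅ ∨ (W : Set M)ᶜ.Finite ∨ ((W : Set M) ⊆ U ∧ (U \ W : Set M).Finite) := Iff.rfl

instance fac_t1 (U : Set M) : T1Space (Fac U) := by
  refine ⟨fun a => ?_⟩
  rw [← isOpen_compl_iff, fac_isOpen_iff]
  right; left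
  rw [compl_compl]
  exact finite_singleton a

theorem fac_compact (U : Set M) (K : Set (Fac U)) : IsCompact K := by
  classical
  refine isCompact_of_finite_subcover ?_
  intro ι W hW hcov
  have key : ∀ i, (K \ W i).Finite → ∃ t : Finset ι, K ⊆ ⋃ i ∈ t, W i := by
    intro i hfin
    have hex : ∀ z : Fac U, ∃ j, z ∈ K → z ∈ W j := by
      intro z
      by_cases hz : z ∈ K
      · obtain ⟨j, hj⟩ := mem_iUnion.mp (hcov hz)
        exact ⟨j, fun _ => hj⟩
      · exact ⟨i, fun h => absurd h hz⟩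
    choose j hj using hex
    refine ⟨insert i (hfin.toFinset.image j), fun z hz => ?_⟩
    by_cases hzi : z ∈ W i
    · exact mem_iUnion₂.mpr ⟨i, Finset.mem_insert_self _ _, hzi⟩
    · refine mem_iUnion₂.mpr ⟨j z, Finset.mem_insert_of_mem (Finset.mem_image_of_mem j (hfin.mem_toFinset.mpr ⟨hz, hzi⟩)), hj z hz⟩
  by_cases h : ∃ i, (W i : Set M)ᶜ.Finite
  · obtain ⟨i, hi⟩ := h
    exact key i (hi.subset fun z hz => hz.2)
  · push Not at h
    rcases K.eq_empty_or_nonempty with rfl | ⟨z, hz⟩
    · exact ⟨∅, empty_subset _⟩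
    · obtain ⟨i, hi⟩ := mem_iUnion.mp (hcov hz)
      apply key i
      have hWi := ((fac_isOpen_iff.mp (hW i)).resolve_left (fun h0 => by rw [h0] at hi; exact hi)).resolve_left (h i)
      refine hWi.2.subset ?_
      rintro y ⟨hyK, hyW⟩
      refine ⟨?_, hyW⟩
      obtain ⟨j, hj⟩ := mem_iUnion.mp (hcov hyK)
      have hWj := ((fac_isOpen_iff.mp (hW j)).resolve_left (fun h0 => by rw [h0] at hj; exact hj)).resolve_left (h j)
      exact hWj.1 hj

theorem fac_coSober (U : Set M) : CoSober (Fac U) := coSober_of (fac_compact U)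

/-- There is a family of co-sober `T₁` spaces on countable sets whose product is not co-sober. -/
theorem result : ∃ (I : Type) (X : I → Type) (t : ∀ i, TopologicalSpace (X i)),
    (∀ i, @CoSober (X i) (t i)) ∧ (∀ i, @T1Space (X i) (t i)) ∧ (∀ i, Countable (X i)) ∧
      ¬ @CoSober (∀ i, X i) (@Pi.topologicalSpace I X t) := by
  classical
  obtain ⟨φ, h1, hs⟩ := exists_functional
  obtain ⟨p, hpA, hpB⟩ := exists_p h1 hs
  obtain ⟨g⟩ : Nonempty (ℚ ≃ M) := ⟨(Denumerable.eqv ℚ).trans (Denumerable.eqv M).symm⟩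
  let l : ℝ → M := fun x => g (φ x)
  have hfin : ∀ F : Set M, F.Finite → F ∉ p := fun F hF => hpB 0 F fun x _ => hF.inter_of_left _
  letI τ : TopologicalSpace M := tau p l
  have hcomp : CompactSpace M := tau_compact (Denumerable.eqv M).symm.surjective
  have hirr : ∀ K : Set M, IsCompact K → K ∈ p → K = univ := by
    intro K hK hKp
    by_contra hne
    obtain ⟨a, ha⟩ := (ne_univ_iff_exists_notMem K).mp hne
    refine hpB (g.symm a) K (fun x hx => tau_proper hfin hpA hK ha ?_) hKp
    have hx' : φ x = g.symm a := hx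
    change g (φ x) = a
    rw [hx', Equiv.apply_symm_apply]
  let I : Type := {U : Set M // IsOpen U}
  refine ⟨I, fun U => Fac U.1, fun U => facTop U.1, fun U => fac_coSober U.1, fun U => fac_t1 U.1,
    fun U => inferInstanceAs (Countable M), fun hcs => ?_⟩
  let e : M → ∀ U : I, Fac U.1 := fun m _ => m
  have hcont : Continuous e := by
    refine continuous_pi fun U => ?_
    refine ⟨fun W hW => ?_⟩
    exact tau_of_fac hfin U.2 (fac_isOpen_iff.mp hW)
  have hind : IsInducing e := by
    refine ⟨le_antisymm hcont.le_induced ?_⟩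
    intro V hV
    rw [isOpen_induced_iff]
    let V' : I := ⟨V, hV⟩
    refine ⟨(fun f : ∀ U : I, Fac U.1 => f V') ⁻¹' (V : Set M), ?_, rfl⟩
    refine IsOpen.preimage (continuous_apply V') ?_
    refine fac_isOpen_iff.mpr (Or.inr (Or.inr ⟨Subset.rfl, ?_⟩))
    have h0 : (V \ V : Set M) = ∅ := Set.sdiff_self
    exact (congrArg Set.Finite h0).mpr finite_empty
  have hinj : Function.Injective e := fun a b h => congrFun h ⟨univ, isOpen_univ⟩
  have hk : KIrreducible (range e) := by
    refine ⟨⟨⟨e (0, 0), mem_range_self _⟩, isCompact_range hcont, saturated_of_t1 _⟩, ?_⟩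
    intro K₁ K₂ hK₁ hK₂ hu
    have hpre : (e ⁻¹' K₁) ∪ (e ⁻¹' K₂) = univ := by
      rw [← preimage_union, ← hu, preimage_range]
    have hsub₁ : K₁ ⊆ range e := hu ▸ subset_union_left
    have hsub₂ : K₂ ⊆ range e := hu ▸ subset_union_right
    have hc : ∀ K : Set (∀ U : I, Fac U.1), K ⊆ range e → IsCompact K → IsCompact (e ⁻¹' K) := by
      intro K hK hKc
      rw [hind.isCompact_iff, image_preimage_eq_of_subset hK]
      exact hKc
    have hmem : (e ⁻¹' K₁) ∪ (e ⁻¹' K₂) ∈ p := by rw [hpre]; exact univ_mem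
    rcases Ultrafilter.union_mem_iff.mp hmem with h | h
    · left
      have := hirr _ (hc _ hsub₁ hK₁.2.1) h
      refine Subset.antisymm ?_ hsub₁
      rintro _ ⟨m, rfl⟩
      have hm : m ∈ e ⁻¹' K₁ := by rw [this]; trivial
      exact hm
    · right
      have := hirr _ (hc _ hsub₂ hK₂.2.1) h
      refine Subset.antisymm ?_ hsub₂
      rintro _ ⟨m, rfl⟩
      have hm : m ∈ e ⁻¹' K₂ := by rw [this]; trivial
      exact hm
  obtain ⟨k, hk'⟩ := hcs.2 _ hk
  rw [up_eq] at hk'
  have h3 : e (0, 0) = k := by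
    have : e (0, 0) ∈ range e := mem_range_self _
    rw [hk'] at this
    exact this
  have h4 : e (1, 0) = k := by
    have : e (1, 0) ∈ range e := mem_range_self _
    rw [hk'] at this
    exact this
  have h5 := hinj (h3.trans h4.symm)
  have h6 : (0 : ℕ) = 1 := congrArg Prod.fst h5
  omega

end Pool.Agent.Results.MP_8d849c_gt.ProductNotCoSober
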